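import Pool.Agent.H601R2.SqTot

set_option autoImplicit false

/-!
Record gaps from a square `n^2` to the next prime, at integers `n` with a small totient.
-/

namespace Pool.Agent.Results.MP_36c81c_nt.SmallTotient

/-- `q(n)`, the least prime greater than `n^2`. -/
noncomputable def q (n : ℕ) : ℕ := sInf {p : ℕ | p.Prime ∧ n ^ 2 < p}

/-- `a(n) = q(n) - n^2`. -/
noncomputable def a (n : ℕ) : ℕ := q n - n ^ 2

/-- `L(x) = log x (log log x)^2 log log log log x / (log log log x)^2`. -/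
noncomputable def L (x : ℝ) : ℝ :=
  Real.log x * (Real.log (Real.log x)) ^ 2 * Real.log (Real.log (Real.log (Real.log x))) /
    (Real.log (Real.log (Real.log x))) ^ 2

/-- There is `c > 0` such that for every `0 < θ ≤ 1` and all large `M` some `n` with
`M < n ≤ M + M^θ` satisfies both `a(n) > c θ L(n)` and
`φ(n) ≤ 2 n log log log log n / log log log n`. -/
theorem result : ∃ c : ℝ, 0 < c ∧ ∀ θ : ℝ, 0 < θ → θ ≤ 1 → ∃ M₀ : ℕ, ∀ M : ℕ, M₀ ≤ M →
    ∃ n : ℕ, M < n ∧ (n : ℝ) ≤ M + (M : ℝ) ^ θ ∧ c * θ * L n < a n ∧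
      (Nat.totient n : ℝ) ≤ 2 * n * (Real.log (Real.log (Real.log (Real.log n))) /
        Real.log (Real.log (Real.log n))) := by
  obtain ⟨c, hc, h⟩ := Pool.Agent.H601R2.SqTot.tot
  refine ⟨c, hc, fun θ h1 h2 => ?_⟩
  obtain ⟨M₀, hM₀⟩ := h θ h1 h2
  refine ⟨M₀, fun M hM => ?_⟩
  obtain ⟨n, h3, h4, h5, h6⟩ := hM₀ M hM
  refine ⟨n, h3, h4, ?_, h6⟩
  have hne : {p : ℕ | p.Prime ∧ n ^ 2 < p}.Nonempty := by
    obtain ⟨p, hp1, hp2⟩ := Nat.exists_infinite_primes (n ^ 2 + 1)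
    exact ⟨p, hp2, by omega⟩
  have hmem : (q n).Prime ∧ n ^ 2 < q n := Nat.sInf_mem hne
  have h7 := h5 (q n) hmem.1
  have h8 : (n : ℝ) ^ 2 < (q n : ℝ) := by exact_mod_cast hmem.2
  rw [abs_of_pos (by linarith)] at h7
  have h9 : ((a n : ℕ) : ℝ) = (q n : ℝ) - (n : ℝ) ^ 2 := by
    unfold a
    rw [Nat.cast_sub hmem.2.le]
    push_cast
    ring
  rw [h9]
  exact h7

end Pool.Agent.Results.MP_36c81c_nt.SmallTotient
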