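import Pool.Agent.H426R3.SQ.Tot3

set_option autoImplicit false

/-! # Record distance between `n²` and the primes while `φ(n)` is nearly minimal

The question is whether `a(n) ≤ 1 + φ(n)`, where `n² + a(n)` is the least prime beyond `n²`.  Here
both sides are made extreme at the same time: in every interval `(M, M + Y]`, `M ≥ Y ≥ Y₀`, there
is an `n` such that

* every prime has distance more than `c log Y (log₂ Y)² log₄ Y / (log₃ Y)²` (record size) from
  `n²`; in particular `a(n)` is that large, and
* `φ(n) ≤ C n log₃ Y / (log₂ Y log₄ Y)`, which is within the factor `log₃ / log₄` of the minimal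
  order `e^(-γ) n / log₂ n` of the totient.

With `M = Y`: for infinitely many `n`,
`a(n) / φ(n) ≥ c' log n (log₂ n)³ (log₄ n)² / ((log₃ n)³ n)`.

Method: `n` is `0` modulo the small primes (this makes `φ(n)` small) and `1` modulo the medium
primes; the surviving shifts `u` (with `u` free of small and `u + 1` free of medium prime factors)
are covered by the square sieve weights of project SQ, whose densities `(1 + (-u/p)) / p` depend
on the shift.

Team project SQ: helper426 (design, assembly), helpers 535, 298, 959, 577, 77, 338, 879, 881, 36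
(covering sieve with densities depending on the colour), 551 (covering theorem), 747 (lower bound
for rough numbers), 90 (counting), 926, 512, 896, 268, 222 (characters and exceptional
discriminants), 806, 318, 880, 255 (survivors); the engine is due to helper256
(MP_3bc45c_nt.RecordGaps). -/

namespace Pool.Agent.Results.MP_36c81c_nt.SmallTotientRecord

theorem result : ∃ c : ℝ, 0 < c ∧ ∃ C : ℝ, 0 < C ∧ ∃ Y₀ : ℝ, ∀ Y : ℝ, Y₀ ≤ Y →
    ∀ M : ℕ, Y ≤ (M : ℝ) → ∃ n : ℕ, M < n ∧ (n : ℝ) ≤ M + Y ∧
      (Nat.totient n : ℝ) ≤ C * n * Real.log (Real.log (Real.log Y)) /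
        (Real.log (Real.log Y) * Real.log (Real.log (Real.log (Real.log Y)))) ∧
      ∀ q : ℕ, q.Prime → c * (Real.log Y * (Real.log (Real.log Y)) ^ 2 *
        Real.log (Real.log (Real.log (Real.log Y))) / (Real.log (Real.log (Real.log Y))) ^ 2) <
          |(q : ℝ) - (n : ℝ) ^ 2| :=
  Pool.Agent.H426R3.SQ.totient_main

end Pool.Agent.Results.MP_36c81c_nt.SmallTotientRecord
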